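import Pool.Agent.U951.TR.Idx
import Pool.Agent.U951.TR.Odd
import Pool.Agent.U951.TR.Tot

/-!
# The next prime beyond the square of an integer, and the totient: all integers near `s(n)`, `n - φ(n)` and `α n + β f(n)`

Let `s(n)` be the sum of the proper divisors of `n`, let `G` have steps bounded below by a positive constant and order
of growth at most `d ≥ 1`, and `κ ≥ 0`, `0.612 d + κ ≤ e ≤ 1`. We show that for a set of `n` of lower density at least
`1 - e` ALL the integers `k ≥ 1` with `|k - G (s(n))| ≤ s(n) ^ κ` have the following property, and the same holds for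
`n - φ(n)` in place of `s(n)`: `a(k) ≤ φ(k)`, even `a(k) ≤ φ(k) ^ (1 - δ)`, where `a(k)` is the distance from `k ^ 2`
to the next prime (the inequality `a(k) ≤ 1 + φ(k)` of the question), and all the intervals `(k ^ 2, k ^ 2 + H]` with
`φ(k) ^ (1 - δ) ≤ H ≤ k` contain at least `c H / log k` primes. For `G g = g` and `κ = 0` this is a statement on `k =
s(n)` and `k = n - φ(n)`, for a set of `n` of lower density at least `0.388`. More precisely the property holds for
almost all `n` with a divisor `≥ n ^ e` which is a prime or the product of two different primes, and for the values `g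
= α n + β f(n)` of multiplicative functions with `f p = p + c` at the primes, uniformly in `|α|, |β| ≤ N ^ δ'` and
with a power saving in the number of the exceptional `n`.

The values `s(n)`, `n - φ(n)` are not multiplicative, and some of them are taken very often, so that bounds for the
number of the exceptional `k ≤ X` do not say anything about them.

Proof. The starting library (`Pool/Agent/Q278/KT`, in the form `Pool/Agent/S821/PowIdx` of helper821) bounds the
number of the exceptional `k ≤ X` by `X ^ (0.612 - δ)`. Let `n = k v p` with large primes `p ≠ v`. Then `g = A v p + B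
(v + p) + B c`, `A = α k + β f(k)`, `B = β c f(k)`, and so `(A v + B) (A p + B) = A g + B² - A B c`: for given `g`,
`k`, `α`, `β` there are only `N^o(1)` possibilities for `p` and `v` (tool `Pool.Agent.U365.POW` of helper365).
-/

set_option autoImplicit false

open Finset Filter

namespace Pool.Agent.Results.MP_36c81c_nt.AliquotValues

open Pool.Agent.S821.PowIdx (RichPow)
open Pool.Agent.U951.TR.Idx (Near)
open Pool.Agent.U365.POW (Values Dens)
open Pool.Agent.N733.TG (Expanding)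

/-- `q(n)`, the least prime greater than `n^2`. -/
noncomputable def q (n : ℕ) : ℕ := sInf {p : ℕ | p.Prime ∧ n ^ 2 < p}

/-- `a(n) = q(n) - n^2`. -/
noncomputable def a (n : ℕ) : ℕ := q n - n ^ 2

/-- `a(n) ≤ φ(n)`, even `a(n) ≤ φ(n) ^ (1 - δ)`, and all the intervals `(n ^ 2, n ^ 2 + H]` with `φ(n) ^ (1 - δ) ≤ H ≤ n` contain at
least `c H / log n` primes. -/
def Good (c δ : ℝ) (n : ℕ) : Prop :=
  a n ≤ Nat.totient n ∧ (a n : ℝ) ≤ (Nat.totient n : ℝ) ^ (1 - δ) ∧
    ∀ H : ℕ, (Nat.totient n : ℝ) ^ (1 - δ) ≤ H → H ≤ n →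
      c * H / Real.log n ≤ (((Finset.Ioc (n ^ 2) (n ^ 2 + H)).filter Nat.Prime).card : ℝ)

lemma good_of_rich {c δ : ℝ} (hc : 0 < c) (hδ : 0 < δ) {n : ℕ}
    (h : RichPow c (1 - δ) 2 3 (1 * n))
    (h1 : (n : ℝ) ^ (1 - δ) + 1 ≤ (Nat.totient n : ℝ) ^ (1 - δ / 2)) (h2 : (n : ℝ) ^ (1 - δ) + 1 ≤ n) (h3 : 2 ≤ n) :
    Good c (δ / 2) n := by
  rw [one_mul] at h
  have hn0 : (0 : ℝ) < n := by positivity
  have hn1 : (1 : ℝ) < n := by exact_mod_cast h3
  have hlog : 0 < Real.log n := Real.log_pos hn1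
  have hw : ∀ H : ℕ, (n : ℝ) ^ (1 - δ) ≤ H → H ≤ n →
      c * H / Real.log n ≤ (((Finset.Ioc (n ^ 2) (n ^ 2 + H)).filter Nat.Prime).card : ℝ) := by
    intro H g1 g2
    have g2' : (H : ℝ) ≤ n := by exact_mod_cast g2
    refine h (n ^ 2) H ?_ ?_ g1
    · rw [Real.rpow_two]
      push_cast
      rw [sub_self, abs_zero, show (2 : ℝ) - 1 = 1 by norm_num, Real.rpow_one]
      positivity
    · rw [Real.rpow_two]
      push_cast
      rw [add_sub_cancel_left, abs_of_nonneg (Nat.cast_nonneg _), show (2 : ℝ) - 1 = 1 by norm_num, Real.rpow_one]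
      linarith
  obtain ⟨H, hH⟩ : ∃ H : ℕ, H = ⌈(n : ℝ) ^ (1 - δ)⌉₊ := ⟨_, rfl⟩
  have hHle : (H : ℝ) ≤ (n : ℝ) ^ (1 - δ) + 1 := by
    rw [hH]
    exact (Nat.ceil_lt_add_one (by positivity)).le
  have hHge : (n : ℝ) ^ (1 - δ) ≤ H := by rw [hH]; exact Nat.le_ceil _
  have hHn : H ≤ n := by exact_mod_cast hHle.trans h2
  have h4 := hw H hHge hHn
  have hH0 : (0 : ℝ) < H := lt_of_lt_of_le (Real.rpow_pos_of_pos hn0 _) hHge
  have h6 : (0 : ℝ) < (((Finset.Ioc (n ^ 2) (n ^ 2 + H)).filter Nat.Prime).card : ℝ) := lt_of_lt_of_le (by positivity) h4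
  obtain ⟨p, hp⟩ := card_pos.1 (by exact_mod_cast h6 : 0 < ((Finset.Ioc (n ^ 2) (n ^ 2 + H)).filter Nat.Prime).card)
  rw [mem_filter, mem_Ioc] at hp
  obtain ⟨⟨h7, h8⟩, h9⟩ := hp
  have hq : q n ≤ p := Nat.sInf_le ⟨h9, h7⟩
  have haH : a n ≤ H := by
    unfold a
    omega
  have haH' : (a n : ℝ) ≤ H := by exact_mod_cast haH
  have h10 : (a n : ℝ) ≤ (Nat.totient n : ℝ) ^ (1 - δ / 2) := haH'.trans (hHle.trans h1)
  have hφ1 : (1 : ℝ) ≤ Nat.totient n := by exact_mod_cast Nat.totient_pos.2 (by omega : 0 < n)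
  refine ⟨?_, h10, fun H' g1 g2 => hw H' (by linarith) g2⟩
  have h11 : (a n : ℝ) ≤ Nat.totient n := by
    refine h10.trans ?_
    calc (Nat.totient n : ℝ) ^ (1 - δ / 2) ≤ (Nat.totient n : ℝ) ^ (1 : ℝ) :=
          Real.rpow_le_rpow_of_exponent_le hφ1 (by linarith)
      _ = _ := Real.rpow_one _
  exact_mod_cast h11

/-- the constants -/
lemma start (c δ : ℝ) (hc : 0 < c) (hδ : 0 < δ) (hδ1 : δ ≤ 0.0025) : ∃ c' δ' : ℝ, 0 < c' ∧ 0 < δ' ∧
    ∃ k1 : ℕ, ∀ k : ℕ, k1 ≤ k → RichPow c (1 - δ) 2 3 (1 * k) → Good c' δ' k := by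
  obtain ⟨n1, hn1⟩ := eventually_atTop.1 (Pool.Agent.U951.TR.Tot.totient_large hδ (by linarith))
  refine ⟨c, δ / 2, hc, by positivity, n1, fun k hk hR => ?_⟩
  obtain ⟨g1, g2, g3⟩ := hn1 k hk
  exact good_of_rich hc hδ hR g1 g2 g3

/-- **Theorem.** There are `c > 0` and `δ > 0` such that for all `G` with steps bounded below and order at most `d ≥ 1`,
and all `κ ≥ 0` and `e ≤ 1` with `0.612 d + κ ≤ e`, the property `Good c δ` of ALL the integers `k ≥ 1` with `|k - G
g| ≤ g ^ κ` holds for the values `g` of functions similar to the aliquot sum (`Values e`: for `s(n)`, for `n - φ(n)`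
and for all `α n + β f(n)`, for almost all the `n` with a divisor `≥ n ^ e` which is a prime or the product of two
different primes), and for both `g = s(n)` and `g = n - φ(n)` for a set of `n` of lower density at least `1 - e`. -/
theorem result :
    ∃ c δ : ℝ, 0 < c ∧ 0 < δ ∧ ∀ (G : ℕ → ℝ) (d : ℝ), Expanding G d → ∀ κ e : ℝ, 0 ≤ κ → 0.612 * d + κ ≤ e → e ≤ 1 →
      Values e (Near (Good c δ) G κ) ∧ Dens (1 - e) (Near (Good c δ) G κ) := by
  obtain ⟨c, δ, hc, hδ, hδ1, H⟩ := Pool.Agent.U951.TR.Idx.tools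
  obtain ⟨c', δ', hc', hδ', hk⟩ := start c δ hc hδ hδ1
  refine ⟨c', δ', hc', hδ', fun G d hG κ e hκ he he1 => ?_⟩
  exact (H 1 (Good c' δ') (by norm_num) hk G d hG κ e hκ he).1 he1

end Pool.Agent.Results.MP_36c81c_nt.AliquotValues
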