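import Pool.Agent.U513.AP.Primes

/-!
# The primes beyond the squares at the numerators and denominators of Diophantine approximations

Let `α ∈ ℝ ^ d` and consider all its approximations `(k, p_1, …, p_d)` with `|k α_i - γ_i - p_i| ≤ k ^ (-τ)`; for `d = 1`, `γ = 0`,
`τ = 1` these contain the denominators and numerators of all the convergents of the continued fraction of `α`, for `τ = 1 / d` all
the best simultaneous approximations. We show that for all `α` outside of a set of Hausdorff dimension at most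
`(d + 0.612 + w - δ) / (1 + τ)` the distance `a(n)` from `n ^ 2` to the next prime is at most `φ(n)`, even `a(n) ≤ φ(n) ^ (1 - δ)`, for ALL the integers `n ≥ 1` at a distance of at most `k ^ w` from
`a k + b_1 p_1 + ⋯ + b_d p_d`, for every integral linear form `(a, b) ≠ 0` and all these approximations with large `k`; moreover all the
intervals `(n ^ 2, n ^ 2 + H]`, `φ(n) ^ (1 - δ) ≤ H ≤ n`, contain at least `c H / log n` primes. For
`d = 1`, `τ = 1` the dimension is at most `(1.612 + w - δ) / 2 < 1` for `w ≤ 0.388`. The theorem is more general: linear forms are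
replaced by all the integral polynomials `P(k, p)` of degree at most `D` with small level sets, with the dimension
`(d + 1 - l + 0.612 D + w - δ) / (1 + τ)`, for example `k ^ 2 + p_1 ^ 2 + Q(p_2, …)` with `l = D = 2`, so that for `d = 1`, `τ = 1` all the
integers `n` within `k ^ w` of `k ^ 2 + p ^ 2` are covered, with dimension `(1.224 + w - δ) / 2`. All the `α` with approximations of
exponent `τ > 1 / d` form a set of dimension `(d + 1) / (1 + τ)`, so that the theorem is new information also for large `τ`.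

Proof. `Pool/Agent/Q278/KT` of the starting library (prepared for another question) bounds the number of the exceptional `n ≤ X` by
`X ^ (0.612 - δ)` (`S821/PowIdx` of helper821, form of helper766 in `U766/OP/Core`). The integral vectors `(k, p)` with `k ≈ N` and
`P(k, p)` near the exceptional set are counted with the level sets of `P` (`U513/AP/Core`), and the sets of the `α` approximated
by them, cubes of side `2 N ^ (- 1 - τ)`, are used as the covers in the definition of the Hausdorff measure. The numbers `k`, `p` have the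
density zero for a given `α`, so that a bound for the number of exceptional `n` alone does not say anything about them.
-/

set_option autoImplicit false

open Finset Filter MeasureTheory

namespace Pool.Agent.Results.MP_36c81c_nt.Approximations

/-- `q(n)`, the least prime greater than `n^2`. -/
noncomputable def q (n : ℕ) : ℕ := sInf {p : ℕ | p.Prime ∧ n ^ 2 < p}

/-- `a(n) = q(n) - n^2`. -/
noncomputable def a (n : ℕ) : ℕ := q n - n ^ 2

/-- `a(n) ≤ φ(n)`, even `a(n) ≤ φ(n) ^ (1 - δ)`, and all the intervals `(n ^ 2, n ^ 2 + H]` with `φ(n) ^ (1 - δ) ≤ H ≤ n` contain at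
least `c H / log n` primes. -/
def Good (c δ : ℝ) (n : ℕ) : Prop :=
  a n ≤ Nat.totient n ∧ (a n : ℝ) ≤ (Nat.totient n : ℝ) ^ (1 - δ) ∧
    ∀ H : ℕ, (Nat.totient n : ℝ) ^ (1 - δ) ≤ H → H ≤ n →
      c * H / Real.log n ≤ (((Finset.Ioc (n ^ 2) (n ^ 2 + H)).filter Nat.Prime).card : ℝ)

/-- The level sets of `P` in the boxes `|w_i| ≤ X` have at most `C X ^ (r - l + ε)` elements. -/
def SmallLevels {r : ℕ} (P : MvPolynomial (Fin r) ℤ) (l : ℝ) : Prop :=
  l ≤ r ∧ ∀ ε : ℝ, 0 < ε → ∃ C : ℝ, ∀ X : ℕ, 1 ≤ X → ∀ v : ℤ,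
    ({w : Fin r → ℤ | (∀ i, |w i| ≤ X) ∧ MvPolynomial.eval w P = v}.ncard : ℝ) ≤ C * (X : ℝ) ^ (r - l + ε)

/-- the polynomial `x_0 ^ 2 + x_1 ^ 2 + Q(x_2, x_3, …)` -/
noncomputable def squaresPlus {r : ℕ} (Q : MvPolynomial (Fin r) ℤ) : MvPolynomial (Fin (r + 2)) ℤ :=
  MvPolynomial.X 0 ^ 2 + MvPolynomial.X 1 ^ 2 + MvPolynomial.rename (fun i : Fin r => i.succ.succ) Q

/-- `(k, p)` is an approximation of `α` of exponent `τ` and shift `γ`: `|k α_i - γ_i - p_i| ≤ k ^ (-τ)` for all `i`. -/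
def Approx {d : ℕ} (τ : ℝ) (γ α : Fin d → ℝ) (k : ℕ) (p : Fin d → ℤ) : Prop :=
  ∀ i, |(k : ℝ) * α i - γ i - p i| ≤ (k : ℝ) ^ (-τ)

lemma le_totient_mul (N : ℕ) (hN : 0 < N) : N ≤ N.divisors.card * N.totient := by
  conv_lhs => rw [← Nat.sum_totient N]
  rw [← smul_eq_mul]
  apply Finset.sum_le_card_nsmul
  intro d hd
  exact Nat.le_of_dvd (Nat.totient_pos.mpr hN) (Nat.totient_dvd_of_dvd (Nat.dvd_of_mem_divisors hd))

/-- the totient is large -/
lemma totient_large {δ : ℝ} (hδ : 0 < δ) (hδ1 : δ ≤ 1) :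
    ∀ᶠ n : ℕ in atTop, (n : ℝ) ^ (1 - δ) + 1 ≤ (Nat.totient n : ℝ) ^ (1 - δ / 2) ∧ (n : ℝ) ^ (1 - δ) + 1 ≤ n ∧ 2 ≤ n := by
  obtain ⟨D, hD, hdiv⟩ := Pool.Agent.H510R2.divisor_bound (δ / 8) (by positivity)
  have t0 : Tendsto (fun n : ℕ => (n : ℝ)) atTop atTop := tendsto_natCast_atTop_atTop
  have h1 := t0.eventually (Pool.Agent.U513.AP.ev (max D 1) (max D 1)
    (by nlinarith : 1 - δ < (1 - δ / 8) * (1 - δ / 2)) (by nlinarith : 0 < (1 - δ / 8) * (1 - δ / 2)))
  have h2 := t0.eventually (Pool.Agent.U513.AP.ev 1 1 (by linarith : 1 - δ < 1) one_pos)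
  filter_upwards [h1, h2, eventually_ge_atTop 2] with n a1 a2 a3
  rw [one_mul, Real.rpow_one] at a2
  refine ⟨?_, a2, a3⟩
  have hn0 : (0 : ℝ) < n := by positivity
  have hD1 : 1 ≤ max D 1 := le_max_right _ _
  have b1 : (n : ℝ) ≤ (n.divisors.card : ℝ) * Nat.totient n := by exact_mod_cast le_totient_mul n (by omega)
  have b2 := hdiv n (by omega)
  have hφ : (0 : ℝ) ≤ Nat.totient n := Nat.cast_nonneg _
  have hn8 : 0 < (n : ℝ) ^ (δ / 8) := Real.rpow_pos_of_pos hn0 _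
  have b3 : (n : ℝ) ≤ max D 1 * (n : ℝ) ^ (δ / 8) * Nat.totient n := by
    refine b1.trans (mul_le_mul_of_nonneg_right (b2.trans ?_) hφ)
    exact mul_le_mul_of_nonneg_right (le_max_left _ _) hn8.le
  have b4 : (n : ℝ) ^ (1 - δ / 8) ≤ max D 1 * Nat.totient n := by
    have e : (n : ℝ) = (n : ℝ) ^ (1 - δ / 8) * (n : ℝ) ^ (δ / 8) := by
      rw [← Real.rpow_add hn0, show 1 - δ / 8 + δ / 8 = 1 by ring, Real.rpow_one]
    have h3 : (n : ℝ) ^ (1 - δ / 8) * (n : ℝ) ^ (δ / 8) ≤ (max D 1 * Nat.totient n) * (n : ℝ) ^ (δ / 8) := by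
      rw [← e]
      linarith
    exact le_of_mul_le_mul_right h3 hn8
  have b5 : (n : ℝ) ^ ((1 - δ / 8) * (1 - δ / 2)) ≤ max D 1 * (Nat.totient n : ℝ) ^ (1 - δ / 2) := by
    rw [Real.rpow_mul hn0.le]
    calc ((n : ℝ) ^ (1 - δ / 8)) ^ (1 - δ / 2) ≤ (max D 1 * Nat.totient n) ^ (1 - δ / 2) :=
          Real.rpow_le_rpow (by positivity) b4 (by linarith)
      _ = (max D 1) ^ (1 - δ / 2) * (Nat.totient n : ℝ) ^ (1 - δ / 2) := Real.mul_rpow (by positivity) hφ
      _ ≤ (max D 1) ^ (1 : ℝ) * (Nat.totient n : ℝ) ^ (1 - δ / 2) := by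
          refine mul_le_mul_of_nonneg_right (Real.rpow_le_rpow_of_exponent_le hD1 (by linarith)) (by positivity)
      _ = _ := by rw [Real.rpow_one]
  have b6 : max D 1 * ((n : ℝ) ^ (1 - δ) + 1) ≤ max D 1 * (Nat.totient n : ℝ) ^ (1 - δ / 2) := by
    refine le_trans (le_of_eq ?_) (a1.trans b5)
    ring
  exact le_of_mul_le_mul_left b6 (by linarith)

lemma good_of_rich {c δ : ℝ} (hc : 0 < c) (hδ : 0 < δ) {n : ℕ}
    (h : Pool.Agent.S821.PowIdx.RichPow c (1 - δ) 2 1 n)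
    (h1 : (n : ℝ) ^ (1 - δ) + 1 ≤ (Nat.totient n : ℝ) ^ (1 - δ / 2)) (h2 : (n : ℝ) ^ (1 - δ) + 1 ≤ n) (h3 : 2 ≤ n) :
    Good c (δ / 2) n := by
  have hn0 : (0 : ℝ) < n := by positivity
  have hn1 : (1 : ℝ) < n := by exact_mod_cast h3
  have hlog : 0 < Real.log n := Real.log_pos hn1
  have hw : ∀ H : ℕ, (n : ℝ) ^ (1 - δ) ≤ H → H ≤ n →
      c * H / Real.log n ≤ (((Finset.Ioc (n ^ 2) (n ^ 2 + H)).filter Nat.Prime).card : ℝ) := by
    intro H g1 g2
    have g2' : (H : ℝ) ≤ n := by exact_mod_cast g2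
    refine h (n ^ 2) H ?_ ?_ g1
    · rw [Real.rpow_two]
      push_cast
      rw [sub_self, abs_zero, show (2 : ℝ) - 1 = 1 by norm_num, Real.rpow_one, one_mul]
      exact hn0.le
    · rw [Real.rpow_two]
      push_cast
      rw [add_sub_cancel_left, abs_of_nonneg (Nat.cast_nonneg _), show (2 : ℝ) - 1 = 1 by norm_num, Real.rpow_one, one_mul]
      exact g2'
  obtain ⟨H, hH⟩ : ∃ H : ℕ, H = ⌈(n : ℝ) ^ (1 - δ)⌉₊ := ⟨_, rfl⟩
  have hHle : (H : ℝ) ≤ (n : ℝ) ^ (1 - δ) + 1 := by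
    rw [hH]
    exact (Nat.ceil_lt_add_one (by positivity)).le
  have hHge : (n : ℝ) ^ (1 - δ) ≤ H := by rw [hH]; exact Nat.le_ceil _
  have hHn : H ≤ n := by exact_mod_cast hHle.trans h2
  have h4 := hw H hHge hHn
  have hH0 : (0 : ℝ) < H := lt_of_lt_of_le (Real.rpow_pos_of_pos hn0 _) hHge
  have h6 : (0 : ℝ) < (((Finset.Ioc (n ^ 2) (n ^ 2 + H)).filter Nat.Prime).card : ℝ) := lt_of_lt_of_le (by positivity) h4
  obtain ⟨p, hp⟩ := card_pos.1 (by exact_mod_cast h6 : 0 < ((Finset.Ioc (n ^ 2) (n ^ 2 + H)).filter Nat.Prime).card)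
  rw [mem_filter, mem_Ioc] at hp
  obtain ⟨⟨h7, h8⟩, h9⟩ := hp
  have hq : q n ≤ p := Nat.sInf_le ⟨h9, h7⟩
  have haH : a n ≤ H := by
    unfold a
    omega
  have haH' : (a n : ℝ) ≤ H := by exact_mod_cast haH
  have h10 : (a n : ℝ) ≤ (Nat.totient n : ℝ) ^ (1 - δ / 2) := haH'.trans (hHle.trans h1)
  have hφ1 : (1 : ℝ) ≤ Nat.totient n := by exact_mod_cast Nat.totient_pos.2 (by omega : 0 < n)
  refine ⟨?_, h10, fun H' g1 g2 => hw H' (by linarith) g2⟩
  have h11 : (a n : ℝ) ≤ Nat.totient n := by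
    refine h10.trans ?_
    calc (Nat.totient n : ℝ) ^ (1 - δ / 2) ≤ (Nat.totient n : ℝ) ^ (1 : ℝ) :=
          Real.rpow_le_rpow_of_exponent_le hφ1 (by linarith)
      _ = _ := Real.rpow_one _
  exact_mod_cast h11

/-- **The primes beyond the squares at the approximations of almost all points.** There are `c > 0` and `δ > 0` such that for all
`d ≥ 1`, `D ≥ 1`, `τ ≥ 0`, `w ≥ 0`, `l` and all `γ ∈ ℝ ^ d` there is a set `E` of Hausdorff dimension at most
`(d + 1 - l + 0.612 D + w - δ) / (1 + τ)` (of Lebesgue measure zero if `0.612 D + w + 1 ≤ l + d τ`), such that for all `α ∉ E` and all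
integral polynomials `P` in `d + 1` variables of degree at most `D` with `SmallLevels P l`, for all large `k` and all integral vectors
`p` with `|k α_i - γ_i - p_i| ≤ k ^ (-τ)`, ALL the integers `n ≥ 1` with `|n - P(k, p)| ≤ k ^ w` are good: `a(n) ≤ φ(n)`, `a(n) ≤ φ(n) ^ (1 - δ)`, and every
interval `(n ^ 2, n ^ 2 + H]` with `φ(n) ^ (1 - δ) ≤ H ≤ n` contains at least `c H / log n` primes. All the
nonconstant polynomials, such as the linear forms, have `SmallLevels P 1`, and the polynomials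
`x_0 ^ 2 + x_1 ^ 2 + Q(x_2, …)` have `SmallLevels P 2`. -/
theorem result :
    (∃ c δ : ℝ, 0 < c ∧ 0 < δ ∧ ∀ (d D : ℕ) (τ w l : ℝ) (γ : Fin d → ℝ), 1 ≤ d → 1 ≤ D → 0 ≤ τ → 0 ≤ w →
      ∃ E : Set (Fin d → ℝ), dimH E ≤ ENNReal.ofReal ((d + 1 - l + 0.612 * D + w - δ) / (1 + τ)) ∧
        (0.612 * D + w + 1 ≤ l + d * τ → volume E = 0) ∧
        ∀ α, α ∉ E → ∀ P : MvPolynomial (Fin (d + 1)) ℤ, P.totalDegree ≤ D → SmallLevels P l →
          ∀ᶠ k : ℕ in atTop, ∀ p : Fin d → ℤ, Approx τ γ α k p → ∀ n : ℕ, 1 ≤ n →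
            |(n : ℝ) - (MvPolynomial.eval (Fin.cons (k : ℤ) p : Fin (d + 1) → ℤ) P : ℤ)| ≤ (k : ℝ) ^ w →
              Good c δ n) ∧
    (∀ (r : ℕ) (P : MvPolynomial (Fin r) ℤ), (∀ c : ℤ, P ≠ MvPolynomial.C c) → SmallLevels P 1) ∧
    ∀ (r : ℕ) (Q : MvPolynomial (Fin r) ℤ), SmallLevels (squaresPlus Q) 2 := by
  refine ⟨?_, fun r P hP => Pool.Agent.U513.AP.lev_one P hP, fun r Q => Pool.Agent.U513.AP.lev_squares Q⟩
  obtain ⟨c, δ, hc, hδ, hδ1, h⟩ := Pool.Agent.U513.AP.square_law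
  obtain ⟨k1, hk1⟩ : ∃ k1 : ℕ, ∀ k : ℕ, k1 ≤ k → Pool.Agent.S821.PowIdx.RichPow c (1 - δ) 2 3 (1 * k) →
      Good c (δ / 2) k := by
    obtain ⟨k1, hk1⟩ := eventually_atTop.1 (totient_large hδ (by linarith))
    refine ⟨k1, fun k hk hR => ?_⟩
    obtain ⟨g1, g2, g3⟩ := hk1 k hk
    rw [one_mul] at hR
    refine good_of_rich hc hδ (fun a H h1 h2 h3 => hR a H (h1.trans ?_) (h2.trans ?_) h3) g1 g2 g3
    · exact mul_le_mul_of_nonneg_right (by norm_num) (by positivity)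
    · exact mul_le_mul_of_nonneg_right (by norm_num) (by positivity)
  refine ⟨c, δ / 2, by positivity, by positivity, fun d D τ w l γ hd hD hτ hw => ?_⟩
  obtain ⟨E, h1, h2, h3⟩ := h (Good (c) (δ / 2)) 1 k1 le_rfl hk1 d D τ w l γ hd hD hτ hw
  exact ⟨E, h1, h2, h3⟩

end Pool.Agent.Results.MP_36c81c_nt.Approximations
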