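import Pool.Agent.S821.Products
import Pool.Agent.S821.PowIdx
import Pool.Agent.Q278.KT.Fin

/-!
# The primes beyond the squares of the multiples of iterated totients

Let `a(n)` be the distance from `n ^ 2` to the next prime. The question is whether `a(n) ≤ 1 + φ(n)` for all `n ≥ 1`. We show that
for almost all `m` the stronger inequality `a(n) ≤ φ(n) ^ (1 - δ)` is true for ALL the iterates `n = φ_i(m)` of Euler's function,
`i ≤ K(m)`, where `K(m) → ∞`; so the next prime beyond the square of `φ_i(m)` is at most `φ_i(m) ^ 2 + φ_{i+1}(m) ^ (1 - δ)`, all along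
the chain. Moreover it is true for all the multiples `n = j φ_i(m)` with `j ≤ φ_i(m) ^ 0.63` of the iterates, and for all `n` in
windows around these multiples. The same is true for the multiples of the values `f(m)` of multiplicative functions, for all
`m ≤ N` but `N / (log N) ^ U`, for every `U`, and of compositions of functions dominated by the largest prime factor.
All the longer intervals `(n ^ 2, n ^ 2 + H]`, `φ(n) ^ (1 - δ) ≤ H ≤ n`, contain at least `c H / log n` primes for these `n`.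

Proof. `Pool/Agent/Q278/KT` of the starting library (prepared for another question) bounds the number of separated short intervals
with few primes, and hence the number of the exceptional `n ≤ X` by `X ^ (0.612 - δ)` (`S821/PowIdx`; form of helper766 in
`U766/OP/Core`). The multiples of the values avoid the exceptional numbers by the divisor bound and by the laws of `N733.TG`,
`N760.IT`, `N375.AV` of the starting library (`S821/Products`). The iterates of Euler's function form very thin sets and are taken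
with large multiplicities, so that bounds for the number of exceptional `n ≤ X` alone do not give this.
-/

set_option autoImplicit false

open Finset Filter

namespace Pool.Agent.Results.MP_36c81c_nt.MultiplesOfIterates

open Pool.Agent.N733.TG (LM)
open Pool.Agent.N375.AV (PD)
open Pool.Agent.S821.Laws (Three)

/-- `q(n)`, the least prime greater than `n^2`. -/
noncomputable def q (n : ℕ) : ℕ := sInf {p : ℕ | p.Prime ∧ n ^ 2 < p}

/-- `a(n) = q(n) - n^2`. -/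
noncomputable def a (n : ℕ) : ℕ := q n - n ^ 2

/-- `a(n) ≤ φ(n)`, even `a(n) ≤ φ(n) ^ (1 - δ)`, and all the intervals `(n ^ 2, n ^ 2 + H]` with `φ(n) ^ (1 - δ) ≤ H ≤ n` contain at
least `c H / log n` primes. -/
def Good (c δ : ℝ) (n : ℕ) : Prop :=
  a n ≤ Nat.totient n ∧ (a n : ℝ) ≤ (Nat.totient n : ℝ) ^ (1 - δ) ∧
    ∀ H : ℕ, (Nat.totient n : ℝ) ^ (1 - δ) ≤ H → H ≤ n →
      c * H / Real.log n ≤ (((Finset.Ioc (n ^ 2) (n ^ 2 + H)).filter Nat.Prime).card : ℝ)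

lemma le_totient_mul (N : ℕ) (hN : 0 < N) : N ≤ N.divisors.card * N.totient := by
  conv_lhs => rw [← Nat.sum_totient N]
  rw [← smul_eq_mul]
  apply Finset.sum_le_card_nsmul
  intro d hd
  exact Nat.le_of_dvd (Nat.totient_pos.mpr hN) (Nat.totient_dvd_of_dvd (Nat.dvd_of_mem_divisors hd))

/-- the totient is large -/
lemma totient_large {δ : ℝ} (hδ : 0 < δ) (hδ1 : δ ≤ 1) :
    ∀ᶠ n : ℕ in atTop, (n : ℝ) ^ (1 - δ) + 1 ≤ (Nat.totient n : ℝ) ^ (1 - δ / 2) ∧ (n : ℝ) ^ (1 - δ) + 1 ≤ n ∧ 2 ≤ n := by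
  obtain ⟨D, hD, hdiv⟩ := Pool.Agent.H510R2.divisor_bound (δ / 8) (by positivity)
  have t0 : Tendsto (fun n : ℕ => (n : ℝ)) atTop atTop := tendsto_natCast_atTop_atTop
  have h1 := t0.eventually (Pool.Agent.S821.Poor.ev (max D 1) (max D 1)
    (by nlinarith : 1 - δ < (1 - δ / 8) * (1 - δ / 2)) (by nlinarith : 0 < (1 - δ / 8) * (1 - δ / 2)))
  have h2 := t0.eventually (Pool.Agent.S821.Poor.ev 1 1 (by linarith : 1 - δ < 1) one_pos)
  filter_upwards [h1, h2, eventually_ge_atTop 2] with n a1 a2 a3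
  rw [one_mul, Real.rpow_one] at a2
  refine ⟨?_, a2, a3⟩
  have hn0 : (0 : ℝ) < n := by positivity
  have hD1 : 1 ≤ max D 1 := le_max_right _ _
  have b1 : (n : ℝ) ≤ (n.divisors.card : ℝ) * Nat.totient n := by exact_mod_cast le_totient_mul n (by omega)
  have b2 := hdiv n (by omega)
  have hφ : (0 : ℝ) ≤ Nat.totient n := Nat.cast_nonneg _
  have hn8 : 0 < (n : ℝ) ^ (δ / 8) := Real.rpow_pos_of_pos hn0 _
  have b3 : (n : ℝ) ≤ max D 1 * (n : ℝ) ^ (δ / 8) * Nat.totient n := by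
    refine b1.trans (mul_le_mul_of_nonneg_right (b2.trans ?_) hφ)
    exact mul_le_mul_of_nonneg_right (le_max_left _ _) hn8.le
  have b4 : (n : ℝ) ^ (1 - δ / 8) ≤ max D 1 * Nat.totient n := by
    have e : (n : ℝ) = (n : ℝ) ^ (1 - δ / 8) * (n : ℝ) ^ (δ / 8) := by
      rw [← Real.rpow_add hn0, show 1 - δ / 8 + δ / 8 = 1 by ring, Real.rpow_one]
    have h3 : (n : ℝ) ^ (1 - δ / 8) * (n : ℝ) ^ (δ / 8) ≤ (max D 1 * Nat.totient n) * (n : ℝ) ^ (δ / 8) := by
      rw [← e]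
      linarith
    exact le_of_mul_le_mul_right h3 hn8
  have b5 : (n : ℝ) ^ ((1 - δ / 8) * (1 - δ / 2)) ≤ max D 1 * (Nat.totient n : ℝ) ^ (1 - δ / 2) := by
    rw [Real.rpow_mul hn0.le]
    calc ((n : ℝ) ^ (1 - δ / 8)) ^ (1 - δ / 2) ≤ (max D 1 * Nat.totient n) ^ (1 - δ / 2) :=
          Real.rpow_le_rpow (by positivity) b4 (by linarith)
      _ = (max D 1) ^ (1 - δ / 2) * (Nat.totient n : ℝ) ^ (1 - δ / 2) := Real.mul_rpow (by positivity) hφ
      _ ≤ (max D 1) ^ (1 : ℝ) * (Nat.totient n : ℝ) ^ (1 - δ / 2) := by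
          refine mul_le_mul_of_nonneg_right (Real.rpow_le_rpow_of_exponent_le hD1 (by linarith)) (by positivity)
      _ = _ := by rw [Real.rpow_one]
  have b6 : max D 1 * ((n : ℝ) ^ (1 - δ) + 1) ≤ max D 1 * (Nat.totient n : ℝ) ^ (1 - δ / 2) := by
    refine le_trans (le_of_eq ?_) (a1.trans b5)
    ring
  exact le_of_mul_le_mul_left b6 (by linarith)

lemma good_of_rich {c δ : ℝ} (hc : 0 < c) (hδ : 0 < δ) {n : ℕ}
    (h : Pool.Agent.S821.PowIdx.RichPow c (1 - δ) 2 1 n)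
    (h1 : (n : ℝ) ^ (1 - δ) + 1 ≤ (Nat.totient n : ℝ) ^ (1 - δ / 2)) (h2 : (n : ℝ) ^ (1 - δ) + 1 ≤ n) (h3 : 2 ≤ n) :
    Good c (δ / 2) n := by
  have hn0 : (0 : ℝ) < n := by positivity
  have hn1 : (1 : ℝ) < n := by exact_mod_cast h3
  have hlog : 0 < Real.log n := Real.log_pos hn1
  have hw : ∀ H : ℕ, (n : ℝ) ^ (1 - δ) ≤ H → H ≤ n →
      c * H / Real.log n ≤ (((Finset.Ioc (n ^ 2) (n ^ 2 + H)).filter Nat.Prime).card : ℝ) := by
    intro H g1 g2
    have g2' : (H : ℝ) ≤ n := by exact_mod_cast g2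
    refine h (n ^ 2) H ?_ ?_ g1
    · rw [Real.rpow_two]
      push_cast
      rw [sub_self, abs_zero, show (2 : ℝ) - 1 = 1 by norm_num, Real.rpow_one, one_mul]
      exact hn0.le
    · rw [Real.rpow_two]
      push_cast
      rw [add_sub_cancel_left, abs_of_nonneg (Nat.cast_nonneg _), show (2 : ℝ) - 1 = 1 by norm_num, Real.rpow_one, one_mul]
      exact g2'
  obtain ⟨H, hH⟩ : ∃ H : ℕ, H = ⌈(n : ℝ) ^ (1 - δ)⌉₊ := ⟨_, rfl⟩
  have hHle : (H : ℝ) ≤ (n : ℝ) ^ (1 - δ) + 1 := by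
    rw [hH]
    exact (Nat.ceil_lt_add_one (by positivity)).le
  have hHge : (n : ℝ) ^ (1 - δ) ≤ H := by rw [hH]; exact Nat.le_ceil _
  have hHn : H ≤ n := by exact_mod_cast hHle.trans h2
  have h4 := hw H hHge hHn
  have hH0 : (0 : ℝ) < H := lt_of_lt_of_le (Real.rpow_pos_of_pos hn0 _) hHge
  have h6 : (0 : ℝ) < (((Finset.Ioc (n ^ 2) (n ^ 2 + H)).filter Nat.Prime).card : ℝ) := lt_of_lt_of_le (by positivity) h4
  obtain ⟨p, hp⟩ := card_pos.1 (by exact_mod_cast h6 : 0 < ((Finset.Ioc (n ^ 2) (n ^ 2 + H)).filter Nat.Prime).card)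
  rw [mem_filter, mem_Ioc] at hp
  obtain ⟨⟨h7, h8⟩, h9⟩ := hp
  have hq : q n ≤ p := Nat.sInf_le ⟨h9, h7⟩
  have haH : a n ≤ H := by
    unfold a
    omega
  have haH' : (a n : ℝ) ≤ H := by exact_mod_cast haH
  have h10 : (a n : ℝ) ≤ (Nat.totient n : ℝ) ^ (1 - δ / 2) := haH'.trans (hHle.trans h1)
  have hφ1 : (1 : ℝ) ≤ Nat.totient n := by exact_mod_cast Nat.totient_pos.2 (by omega : 0 < n)
  refine ⟨?_, h10, fun H' g1 g2 => hw H' (by linarith) g2⟩
  have h11 : (a n : ℝ) ≤ Nat.totient n := by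
    refine h10.trans ?_
    calc (Nat.totient n : ℝ) ^ (1 - δ / 2) ≤ (Nat.totient n : ℝ) ^ (1 : ℝ) :=
          Real.rpow_le_rpow_of_exponent_le hφ1 (by linarith)
      _ = _ := Real.rpow_one _
  exact_mod_cast h11

/-- **The primes beyond the squares of the multiples of values.** There are `c > 0`, `δ > 0` and `C` such that:

(1) all the positive integers `n ≤ N` but at most `C N ^ (0.612 - δ)` are good, in particular `a(n) ≤ φ(n)`, `a(n) ≤ φ(n) ^ (1 - δ)`;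

(2) if `τ ≥ 0`, `κ ≥ 0` and `0.612 (1 + τ) + κ ≤ 1`, then all the integers `n ≥ 1` at a distance of at most `v ^ κ` from a multiple
`j v`, `1 ≤ j ≤ v ^ τ`, are good, in the sense of the three laws (`Three`) for the values `v ≥ 1` of a multiplicative function, for the
values along the orbits of Euler's function (for the identity, `v = φ_i(m)`, `i ≤ K(m)`) and for compositions of functions dominated
by the largest prime factor;

(3) examples of such functions. -/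
theorem result :
    (∃ c δ C : ℝ, 0 < c ∧ 0 < δ ∧
      (∀ N : ℕ, 1 ≤ N → ({n : ℕ | 1 ≤ n ∧ n ≤ N ∧ ¬ Good c δ n}.ncard : ℝ) ≤ C * (N : ℝ) ^ (0.612 - δ)) ∧
      ∀ τ κ : ℝ, 0 ≤ τ → 0 ≤ κ → 0.612 * (1 + τ) + κ ≤ 1 →
        Three (fun v _ => 1 ≤ v → ∀ j n : ℕ, 1 ≤ j → (j : ℝ) ≤ (v : ℝ) ^ τ → 1 ≤ n → |(n : ℝ) - (j : ℝ) * v| ≤ (v : ℝ) ^ κ →
          Good c δ n) (fun v => (v : ℝ))) ∧
    (LM (fun m => m) ∧ LM Nat.totient ∧ LM (fun m => ∑ d ∈ m.divisors, d)) ∧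
    ((∀ f : ℕ → ℕ, (∀ a b : ℕ, Nat.Coprime a b → f (a * b) = f a + f b) →
      (∃ C : ℕ, ∀ q j : ℕ, q.Prime → 1 ≤ j → f (q ^ j) ≤ C * q ^ j) →
      (∃ P : ℕ, ∀ p q : ℕ, p.Prime → q.Prime → P ≤ p → P ≤ q → f p = f q → p = q) → PD f) ∧
      PD (fun n => n.primeFactors.sup id) ∧ PD (fun n => sInf {k : ℕ | n ∣ k.factorial})) := by
  obtain ⟨e1, e2, -⟩ := Pool.Agent.S821.Laws.examples
  refine ⟨?_, e1, e2⟩
  obtain ⟨c, δ, hc, hδ, hδ1, h⟩ := Pool.Agent.S821.PowIdx.bad_powers Pool.Agent.Q278.KT.mainp_half (by norm_num)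
    (by norm_num) (by norm_num) (by norm_num)
  obtain ⟨C, hC, hB⟩ := h 2 1 (by norm_num) (by norm_num) (by norm_num)
  obtain ⟨n1, hn1⟩ := eventually_atTop.1 (totient_large hδ (by linarith))
  obtain ⟨B, hBdef⟩ : ∃ B : Set ℕ, B = {n : ℕ | 1 ≤ n ∧ ¬ Good (c / 2) (δ / 2) n} := ⟨_, rfl⟩
  have e : (2 : ℝ) * (1 - 1 / 2) - δ = 1 - δ := by ring
  rw [e] at hB
  have hsub : B ⊆ {n : ℕ | ¬ Pool.Agent.S821.PowIdx.RichPow (c / 2) (1 - δ) 2 1 n} ∪ {n : ℕ | n < n1} := by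
    rintro n hn
    rw [hBdef] at hn
    by_cases hlt : n < n1
    · exact Or.inr hlt
    · left
      intro hR
      obtain ⟨g1, g2, g3⟩ := hn1 n (not_lt.1 hlt)
      exact hn.2 (good_of_rich (by positivity) hδ hR g1 g2 g3)
  have hcount : ∀ X : ℝ, 1 ≤ X → {b : ℕ | b ∈ B ∧ (b : ℝ) ≤ X}.Finite ∧
      ({b : ℕ | b ∈ B ∧ (b : ℝ) ≤ X}.ncard : ℝ) ≤ (C + n1) * X ^ (2 * 0.306 - δ) := by
    intro X hX
    obtain ⟨q1, q2⟩ := hB X hX
    have hfin1 : {n : ℕ | n < n1}.Finite := Set.finite_Iio n1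
    have hs : {b : ℕ | b ∈ B ∧ (b : ℝ) ≤ X} ⊆
        {n : ℕ | n ∈ {n : ℕ | ¬ Pool.Agent.S821.PowIdx.RichPow (c / 2) (1 - δ) 2 1 n} ∧ (n : ℝ) ≤ X} ∪ {n : ℕ | n < n1} := by
      rintro b ⟨hb1, hb2⟩
      rcases hsub hb1 with h3 | h3
      · exact Or.inl ⟨h3, hb2⟩
      · exact Or.inr h3
    refine ⟨(q1.union hfin1).subset hs, ?_⟩
    have h4 := (Set.ncard_le_ncard hs (q1.union hfin1)).trans (Set.ncard_union_le _ _)
    have h5 : ({n : ℕ | n < n1}.ncard : ℝ) = n1 := by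
      have : {n : ℕ | n < n1} = ((Finset.range n1 : Finset ℕ) : Set ℕ) := by
        ext n
        simp
      rw [this, Set.ncard_coe_finset, card_range]
    have h6 : (1 : ℝ) ≤ X ^ (2 * 0.306 - δ) := Real.one_le_rpow hX (by linarith)
    calc ({b : ℕ | b ∈ B ∧ (b : ℝ) ≤ X}.ncard : ℝ)
        ≤ ({n : ℕ | n ∈ {n : ℕ | ¬ Pool.Agent.S821.PowIdx.RichPow (c / 2) (1 - δ) 2 1 n} ∧ (n : ℝ) ≤ X}.ncard : ℝ) +
          ({n : ℕ | n < n1}.ncard : ℝ) := by exact_mod_cast h4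
      _ ≤ C * X ^ (2 * 0.306 - δ) + n1 * X ^ (2 * 0.306 - δ) := by
          rw [h5]
          exact add_le_add q2 (le_mul_of_one_le_right (Nat.cast_nonneg _) h6)
      _ = _ := by ring
  refine ⟨c / 2, δ / 2, C + n1, by positivity, by positivity, fun N hN => ?_, fun τ κ hτ hκ hle => ?_⟩
  · have hN1 : (1 : ℝ) ≤ N := by exact_mod_cast hN
    obtain ⟨q1, q2⟩ := hcount N hN1
    have hCn : 0 ≤ C + n1 := by positivity
    calc ({n : ℕ | 1 ≤ n ∧ n ≤ N ∧ ¬ Good (c / 2) (δ / 2) n}.ncard : ℝ) ≤ ({b : ℕ | b ∈ B ∧ (b : ℝ) ≤ N}.ncard : ℝ) := by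
          refine Nat.cast_le.2 (Set.ncard_le_ncard ?_ q1)
          rintro n ⟨g1, g2, g3⟩
          exact ⟨by rw [hBdef]; exact ⟨g1, g3⟩, by exact_mod_cast g2⟩
      _ ≤ (C + n1) * (N : ℝ) ^ (2 * 0.306 - δ) := q2
      _ ≤ (C + n1) * (N : ℝ) ^ (0.612 - δ / 2) := by
          refine mul_le_mul_of_nonneg_left (Real.rpow_le_rpow_of_exponent_le hN1 (by linarith)) hCn
  · refine (Pool.Agent.S821.Mult.three_mult B (s := 2 * 0.306 - δ) (by linarith) hτ hκ (by nlinarith) (C + n1) hcount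
      (fun v => (v : ℝ))).mono fun v x hv hv1 j n hj hjv hn1 hn => ?_
    have h3 := hv hv1 j n hj hjv hn
    rw [hBdef] at h3
    by_contra hcon
    exact h3 ⟨hn1, hcon⟩

end Pool.Agent.Results.MP_36c81c_nt.MultiplesOfIterates
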