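import Pool.Agent.U951.TR.Idx
import Pool.Agent.U951.TR.Odd
import Pool.Agent.U951.TR.Tot

/-!
# The next prime beyond the square of an integer, and the totient: all integers near a value of `f` at thin sets of arguments

Let `f` be a positive multiplicative function of at most polynomial growth which for each `a ≥ 1` is injective at the
powers `p ^ a` of the large primes and at most `M p ^ a` there; for example Euler's function or the sum of the
divisors. Let `G` have steps bounded below by a positive constant and order of growth at most `d ≥ 1`, and let `κ ≥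
0`, `0.612 d + κ ≤ e`. ALL the integers `k ≥ 1` with `|k - G (f v)| ≤ (f v) ^ κ` have the following property, for
almost all `v` (with a saving of any power of the logarithm) in each of the sets below: `a(k) ≤ φ(k)`, even `a(k) ≤
φ(k) ^ (1 - δ)`, where `a(k)` is the distance from `k ^ 2` to the next prime (the inequality `a(k) ≤ 1 + φ(k)` of the
question), and all the intervals `(k ^ 2, k ^ 2 + H]` with `φ(k) ^ (1 - δ) ≤ H ≤ k` contain at least `c H / log k`
primes. The sets are:

* the values of any integer polynomial without repeated roots, of degree `r` with `r e < 1`;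

* the shifted primes `p + a`, `a` any integer, if `e < 1`;

* the intervals `(x, x + y]`, `x^τ ≤ y ≤ x`, for every `τ > e`, `τ ≤ 1`.

Proof. The starting library (`Pool/Agent/Q278/KT`, in the form `Pool/Agent/S821/PowIdx` of helper821) bounds the
number of the exceptional `k ≤ X` by `X ^ (0.612 - δ)`. The tool `Pool.Agent.U405.RS` of helper405 (weighted Rankin
method) shows that the values of `f` at almost all elements of these sets avoid every set with a power saving. The
numbers `f v` are in a set of density zero and are taken with large multiplicities, so that a bound for the number of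
exceptional `k` alone says nothing.
-/

set_option autoImplicit false

open Finset Filter

namespace Pool.Agent.Results.MP_36c81c_nt.SparseArguments

open Pool.Agent.S821.PowIdx (RichPow)
open Pool.Agent.U951.TR.Idx (Near)
open Pool.Agent.U405.RS (PM Sparse examples)
open Pool.Agent.N733.TG (Expanding expanding_pow)

/-- `q(n)`, the least prime greater than `n^2`. -/
noncomputable def q (n : ℕ) : ℕ := sInf {p : ℕ | p.Prime ∧ n ^ 2 < p}

/-- `a(n) = q(n) - n^2`. -/
noncomputable def a (n : ℕ) : ℕ := q n - n ^ 2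

/-- `a(n) ≤ φ(n)`, even `a(n) ≤ φ(n) ^ (1 - δ)`, and all the intervals `(n ^ 2, n ^ 2 + H]` with `φ(n) ^ (1 - δ) ≤ H ≤ n` contain at
least `c H / log n` primes. -/
def Good (c δ : ℝ) (n : ℕ) : Prop :=
  a n ≤ Nat.totient n ∧ (a n : ℝ) ≤ (Nat.totient n : ℝ) ^ (1 - δ) ∧
    ∀ H : ℕ, (Nat.totient n : ℝ) ^ (1 - δ) ≤ H → H ≤ n →
      c * H / Real.log n ≤ (((Finset.Ioc (n ^ 2) (n ^ 2 + H)).filter Nat.Prime).card : ℝ)

lemma good_of_rich {c δ : ℝ} (hc : 0 < c) (hδ : 0 < δ) {n : ℕ}
    (h : RichPow c (1 - δ) 2 3 (1 * n))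
    (h1 : (n : ℝ) ^ (1 - δ) + 1 ≤ (Nat.totient n : ℝ) ^ (1 - δ / 2)) (h2 : (n : ℝ) ^ (1 - δ) + 1 ≤ n) (h3 : 2 ≤ n) :
    Good c (δ / 2) n := by
  rw [one_mul] at h
  have hn0 : (0 : ℝ) < n := by positivity
  have hn1 : (1 : ℝ) < n := by exact_mod_cast h3
  have hlog : 0 < Real.log n := Real.log_pos hn1
  have hw : ∀ H : ℕ, (n : ℝ) ^ (1 - δ) ≤ H → H ≤ n →
      c * H / Real.log n ≤ (((Finset.Ioc (n ^ 2) (n ^ 2 + H)).filter Nat.Prime).card : ℝ) := by
    intro H g1 g2
    have g2' : (H : ℝ) ≤ n := by exact_mod_cast g2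
    refine h (n ^ 2) H ?_ ?_ g1
    · rw [Real.rpow_two]
      push_cast
      rw [sub_self, abs_zero, show (2 : ℝ) - 1 = 1 by norm_num, Real.rpow_one]
      positivity
    · rw [Real.rpow_two]
      push_cast
      rw [add_sub_cancel_left, abs_of_nonneg (Nat.cast_nonneg _), show (2 : ℝ) - 1 = 1 by norm_num, Real.rpow_one]
      linarith
  obtain ⟨H, hH⟩ : ∃ H : ℕ, H = ⌈(n : ℝ) ^ (1 - δ)⌉₊ := ⟨_, rfl⟩
  have hHle : (H : ℝ) ≤ (n : ℝ) ^ (1 - δ) + 1 := by
    rw [hH]
    exact (Nat.ceil_lt_add_one (by positivity)).le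
  have hHge : (n : ℝ) ^ (1 - δ) ≤ H := by rw [hH]; exact Nat.le_ceil _
  have hHn : H ≤ n := by exact_mod_cast hHle.trans h2
  have h4 := hw H hHge hHn
  have hH0 : (0 : ℝ) < H := lt_of_lt_of_le (Real.rpow_pos_of_pos hn0 _) hHge
  have h6 : (0 : ℝ) < (((Finset.Ioc (n ^ 2) (n ^ 2 + H)).filter Nat.Prime).card : ℝ) := lt_of_lt_of_le (by positivity) h4
  obtain ⟨p, hp⟩ := card_pos.1 (by exact_mod_cast h6 : 0 < ((Finset.Ioc (n ^ 2) (n ^ 2 + H)).filter Nat.Prime).card)
  rw [mem_filter, mem_Ioc] at hp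
  obtain ⟨⟨h7, h8⟩, h9⟩ := hp
  have hq : q n ≤ p := Nat.sInf_le ⟨h9, h7⟩
  have haH : a n ≤ H := by
    unfold a
    omega
  have haH' : (a n : ℝ) ≤ H := by exact_mod_cast haH
  have h10 : (a n : ℝ) ≤ (Nat.totient n : ℝ) ^ (1 - δ / 2) := haH'.trans (hHle.trans h1)
  have hφ1 : (1 : ℝ) ≤ Nat.totient n := by exact_mod_cast Nat.totient_pos.2 (by omega : 0 < n)
  refine ⟨?_, h10, fun H' g1 g2 => hw H' (by linarith) g2⟩
  have h11 : (a n : ℝ) ≤ Nat.totient n := by
    refine h10.trans ?_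
    calc (Nat.totient n : ℝ) ^ (1 - δ / 2) ≤ (Nat.totient n : ℝ) ^ (1 : ℝ) :=
          Real.rpow_le_rpow_of_exponent_le hφ1 (by linarith)
      _ = _ := Real.rpow_one _
  exact_mod_cast h11

/-- the constants -/
lemma start (c δ : ℝ) (hc : 0 < c) (hδ : 0 < δ) (hδ1 : δ ≤ 0.0025) : ∃ c' δ' : ℝ, 0 < c' ∧ 0 < δ' ∧
    ∃ k1 : ℕ, ∀ k : ℕ, k1 ≤ k → RichPow c (1 - δ) 2 3 (1 * k) → Good c' δ' k := by
  obtain ⟨n1, hn1⟩ := eventually_atTop.1 (Pool.Agent.U951.TR.Tot.totient_large hδ (by linarith))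
  refine ⟨c, δ / 2, hc, by positivity, n1, fun k hk hR => ?_⟩
  obtain ⟨g1, g2, g3⟩ := hn1 k hk
  exact good_of_rich hc hδ hR g1 g2 g3

/-- **Theorem.** There are `c > 0` and `δ > 0` such that for all `f` of the class `PM`, all `G` with steps bounded below
and order at most `d ≥ 1`, all `κ ≥ 0` and `e` with `0.612 d + κ ≤ e` and every `U` the property `Good c δ` of ALL the
integers `k ≥ 1` with `|k - G (f v)| ≤ (f v) ^ κ` holds in the sense `Sparse e f`: with a saving of `(log x)^U` for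
almost all `v` among the positive values of every integer polynomial without repeated roots of degree `r`, `r e < 1`;
among the shifted primes `p + a`, if `e < 1`; and in all intervals `(x, x + y]`, `x^τ ≤ y ≤ x`, `e < τ ≤ 1`. Euler's
function, the sum of the divisors and the identity are in the class, and `α v^d` with `α > 0`, `d ≥ 1` is an example
of `G`. -/
theorem result :
    (∃ c δ : ℝ, 0 < c ∧ 0 < δ ∧ ∀ f : ℕ → ℕ, PM f → ∀ (G : ℕ → ℝ) (d : ℝ), Expanding G d →
        ∀ κ e : ℝ, 0 ≤ κ → 0.612 * d + κ ≤ e → ∀ U : ℕ, Sparse e f (Near (Good c δ) G κ) U) ∧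
    (PM Nat.totient ∧ PM (fun m => ∑ d ∈ m.divisors, d) ∧ PM (fun m => m)) ∧
    ∀ α d : ℝ, 0 < α → 1 ≤ d → Expanding (fun v => α * (v : ℝ) ^ d) d := by
  refine ⟨?_, examples, fun α d hα hd => expanding_pow hα hd⟩
  obtain ⟨c, δ, hc, hδ, hδ1, H⟩ := Pool.Agent.U951.TR.Idx.tools
  obtain ⟨c', δ', hc', hδ', hk⟩ := start c δ hc hδ hδ1
  refine ⟨c', δ', hc', hδ', fun f hf G d hG κ e hκ he U => ?_⟩
  exact (H 1 (Good c' δ') (by norm_num) hk G d hG κ e hκ he).2.1 f hf U

end Pool.Agent.Results.MP_36c81c_nt.SparseArguments
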